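import Pool.Agent.Run7.h634.HC.Pow

/-!
# Hartshorne's conjecture on hypersurfaces: the asymptotic form and smash nilpotent cycles

For a smooth hypersurface `X` of dimension `n` and degree `d` the conjecture says `CH^i(X) = ℚ h^i` for all
`i < n / 2` (rational coefficients). A class `b` is smash nilpotent if `b × ⋯ × b = 0` for some external
power of `b`.

**Theorem.**

1. Let `d ≥ 1`. Suppose that for every `m` and `N` there are a multiple `d' ≥ 3` of `d` and an even
   `n' ≥ N` such that `CH^i(Y) = ℚ h^i` modulo smash nilpotent classes for all `Y` of degree `d'` and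
   dimension `n'` and all `i ≤ (1 - 1 / m) n' / 2`. Then `CH^i(X) = ℚ h^i` modulo smash nilpotent classes
   for all `X` of degree `d` and all `i < n / 2`.
2. Let `d ≥ 3`. If the equality `CH^i = ℚ h^i` is true for `n - 2 i = (r + 1) e` and infinitely many `n`, then
   every class in `CH^i(X)`, `n - 2 i = e`, is the sum of a multiple of `h^i` and a class `b` with
   `b^(×(r+1)) = 0`, for all `X` of degree `d`.
3. Let `d ≥ 3`. If the equality is true for `n - 2 i = e` and infinitely many `n`, then the classes in
   `CH^i(X × Z)`, `dim X + dim Z - 2 i = e`, which are primitive in both factors, are zero.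

In particular Hartshorne's conjecture in the range `i ≤ (1 / 2 - ε) n`, `n ≥ n_0(ε, d)` (for all `ε > 0` and
one `d`; the codimension is at a distance from the middle which grows with `n`) implies, for this `d`, that
all numerically trivial cycles in the full range `i < n / 2` are smash nilpotent.

## Proof

Let `a ∈ CH^i(X)` be primitive, `e = n - 2 i > 0`. The `r`-fold join `J` of `X` (given by
`F(x_0) + ⋯ + F(x_r) = 0`) has the dimension `(r + 1) (n + 2) - 2`, and the joins of cycles give a primitive
class `b` on `J` with the defect `dim J - 2 codim b = (r + 1) e` and a correspondence which maps `b` to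
`a × ⋯ × a` (because `π_* q^* q_* π^* = - d` on classes which are primitive in both factors). So the ratio of
the defect and the dimension of `J` is at least `e / (n + 2)`, for all `r`. With a further join with an
even-dimensional hypersurface `Z` and a primitive class `ζ` in its middle codimension with `ζ ^ 2 ≠ 0`, all
sufficiently large even dimensions are reached, without a change of the defect. If the class on this
join is smash nilpotent then `a × ⋯ × a` is smash nilpotent, and `a` is smash nilpotent. Finally, every
hypersurface is dominated by one of degree `d c` and the same dimension.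

The theory `C` in the statement has the formal properties of the Chow groups with rational
coefficients (`IsChowProj`); the facts on hypersurfaces and joins (`IsHyperFamily`, `IsHyperClass`,
`IsJoin`) are the other known results which are used.
-/

set_option autoImplicit false

open CategoryTheory AlgebraicGeometry

universe u v

namespace Pool.Agent.Results.MP_4be043_ag.AsymptoticModuloNilpotence

open Pool.Agent.H914 Pool.Agent.H914.VarClass Pool.Agent.W492.BB Pool.Agent.TH133
  Pool.Agent.Run7.H634.HC

/-- **The asymptotic form of Hartshorne's conjecture implies the conjecture modulo smash nilpotent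
cycles.** `𝓕 d` is the class of the smooth hypersurfaces of degree `d` (of positive dimension) with
their hyperplane classes. (1) `Asymptotic C 𝓕 d` (for every `m` and `N` there are a multiple `d' ≥ 3` of `d`
and an even `n ≥ N` such that `CH^i = ℚ h^i` modulo smash nilpotent classes in degree `d'`, dimension `n`
and `i ≤ (1 - 1 / m) n / 2`) implies `CH^i(X) = ℚ h^i` modulo smash nilpotent classes for all `X` of degree
`d` and all `i < dim X / 2`. (2) The equality for the defect `(r + 1) e` in infinitely many dimensions
gives the smash nilpotence of order `r + 1` for the defect `e`. (3) The equality for the defect `e` in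
infinitely many dimensions implies the vanishing of the classes in `CH^i(X × Z)`,
`dim X + dim Z = 2 i + e`, which are primitive in both factors. -/
theorem result {k : Type u} [Field k] {𝒱 : VarClass k} {C : TheoryData.{u, v, 0} 𝒱 ℚ}
    [IsChowProj C] {𝓕 : ℕ → ∀ X : 𝒱.Obj, C.A X → Prop} (h𝓕 : IsHyperFamily C 𝓕) :
    (∀ d : ℕ, 1 ≤ d → Asymptotic C 𝓕 d → ∀ (X : 𝒱.Obj) (h : C.A X), 𝓕 d X h →
      ∀ i : ℕ, 2 * i < X.dim → SpannedMod C h i) ∧
    (∀ d : ℕ, 3 ≤ d → ∀ (e r : ℕ) (D : ℕ → Prop), Unbounded D ((r + 1) * e) →
      HoldsFor C (𝓕 d) ((r + 1) * e) D → NilpotentFor C (𝓕 d) e r) ∧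
    (∀ d : ℕ, 3 ≤ d → ∀ (e : ℕ) (D : ℕ → Prop), Unbounded D e → HoldsFor C (𝓕 d) e D →
      ∀ (X Z : 𝒱.Obj) (h : C.A X) (h' : C.A Z), 𝓕 d X h → 𝓕 d Z h' →
        ∀ (i : ℕ) (α : C.A (X.prod Z)), X.dim + Z.dim = 2 * i + e → C.Deg i α →
          BiPrim C h h' α → α = 0) :=
  ⟨fun _ hd => asymptotic h𝓕 hd,
    fun d hd e r D hD H => (products hd (h𝓕.hyper d hd) e).2 r
      (holds_any (h𝓕.hyper d hd) (by omega) _ D hD H),
    fun d hd e D hD H => (products hd (h𝓕.hyper d hd) e).1
      (holds_any (h𝓕.hyper d hd) (by omega) e D hD H)⟩

end Pool.Agent.Results.MP_4be043_ag.AsymptoticModuloNilpotence
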