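import Mathlib
import Pool.Agent.Run7.h200.CH

/-!
# Group actions and Hartshorne's conjecture on the Chow groups of hypersurfaces

Let a finite group `G` act on a smooth projective variety `X` (a hypersurface in the problem), such
that the class `h` in `CH^1(X)` (the class of a hyperplane section) is invariant; for hypersurfaces
of degree and dimension at least three all automorphisms are linear, so this is automatic. `C` is
an intersection theory in the sense of `Pool.Agent.R903.Chow`: it stands for the Chow groups with
rational coefficients. `QuotientHart C a h i H` says that the `H`-invariant classes of codimension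
`i` are the multiples of `h^i`; since `CH^i(X)^H = CH^i(X/H)` (rational coefficients), this is
Hartshorne's assertion for the quotient `X/H`. For `H = 1` it is the assertion for `X`.

(0) The assertion for `H = 1` is `CH^i(X) = ℚ h^i`.

(1) The assertion holds for `H` if there is a morphism `f : X ⟶ Y` with `CH^i(Y) = ℚ l^i` and
`f^* l = h` which is the quotient morphism for `H`. For example `Y` is the projective space and `X`
is the hypersurface `x_0^d = f(x_1, ...)`, `H` is the group of the `d`-th roots of unity.

(2) Let `K` be a commutative group of automorphisms, and `R_j` subgroups for which the assertion is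
true, for example those of (1). Then the assertion for `X` is equivalent to the assertion for the
quotients `X/D`, `D ⊆ K`, for which `K/D` is cyclic and `D` contains no `R_j`. For example let
`X` be the hypersurface `x_0^d + ... + x_r^d + f(x_(r+1), ...) = 0` and `K` the product of `r + 1`
copies of the group of the `d`-th roots of unity: only the kernels `D` of the characters which are
nontrivial on all the factors remain.

(3) The assertion for `X` is equivalent to the assertion for all the quotients of a dominating family
(1 of `Rest`), for the quotients `X/D` with `K/D` cyclic, `K` commutative (2), by the components of a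
partition of a subgroup (3), for `X/⟨c⟩` and `X/[G, c]`, `c` an involution (4), for `X/⟨c⟩` if `c` is
contained in a nonabelian simple subgroup (5), for `X/A_k` if `A_n` acts and `(k - 1) ^ 2 < n` (6),
and for `X/A_k` and the quotient by the even permutations preserving `k - 1` classes, `2 ≤ k ≤ n` (7).

(8) If the symmetric group `S_n` acts, `(k - 1) ^ 2 < n`: the assertion is true for `X` if and only if
it is true for `X/S_k`, and there are no alternating classes for `S_k`. For example let the
hypersurface of degree `d ≤ k` be given by a polynomial which is symmetric in `n` variables and which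
contains the elementary symmetric polynomial of degree `d` of the first `k` variables linearly (the
Fermat hypersurface): then `X/S_k` is a weighted projective space, for which the assertion is true.

(9) If the assertion is false for `X`, but true for the quotients by the subgroups of prime order,
then `G` acts freely on the nonzero vectors of an irreducible representation which occurs in
`CH^i(X)/ℚ h^i`, the commutative subgroups and the subgroups of order `p q` of `G` are cyclic, and
`G` has at most one involution.
-/

set_option autoImplicit false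

open CategoryTheory Equiv Pool.Agent.H914 Pool.Agent.H914.VarClass Pool.Agent.H914.VarClass.Obj
  Pool.Agent.R903 Run7.h200.CH Run7.h200.Van

universe u v

namespace Pool.Agent.Results.MP_4be043_ag.GroupActions

section

variable {k : Type u} [Field k] {𝒱 : VarClass k} (C : ChowTheory.{u, v} 𝒱) {X : 𝒱.Obj}
  {G : Type} [Group G]

/-- `CH^i(X) = ℚ h^i` -/
def Hart (X : 𝒱.Obj) (h : C.CH X) (i : ℕ) : Prop := ∀ z ∈ C.gr X i, ∃ q : ℚ, z = q • h ^ i

/-- The statements (3) of the introduction. -/
def Rest (a : G →* Aut X) (h : C.CH X) (i : ℕ) : Prop :=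
  (∀ (H : Subgroup G) (ι : Type) (E : ι → Subgroup G), DominatedCH C a h i H E →
    (∀ j, QuotientHart C a h i (E j)) → QuotientHart C a h i H) ∧
  (∀ K : Subgroup G, (∀ x ∈ K, ∀ y ∈ K, x * y = y * x) →
    (Hart C X h i ↔ ∀ D : Subgroup G, CyclicQuotient K D → QuotientHart C a h i D)) ∧
  (∀ (ι : Type) (E : ι → Subgroup G) (K : Subgroup G), Partitions K E →
    (Hart C X h i ↔ ∀ j, QuotientHart C a h i (E j))) ∧
  (∀ c : G, c * c = 1 → (Hart C X h i ↔
    QuotientHart C a h i (Subgroup.zpowers c) ∧ QuotientHart C a h i (commSub c))) ∧
  (∀ c : G, InSimple c → c ≠ 1 → c * c = 1 →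
    (Hart C X h i ↔ QuotientHart C a h i (Subgroup.zpowers c))) ∧
  (∀ (n k : ℕ) (e : alternatingGroup (Fin n) →* G), 2 ≤ k → (k - 1) ^ 2 < n →
    (Hart C X h i ↔ QuotientHart C a h i ((altSub n k).map e))) ∧
  (∀ (n k : ℕ) (e : alternatingGroup (Fin n) →* G), 2 ≤ k → k ≤ n →
    (Hart C X h i ↔ QuotientHart C a h i ((altSub n k).map e) ∧
      QuotientHart C a h i ((classSub n (k - 1)).map e)))

/-- Hartshorne's assertion is true for the quotients `X/R j`. -/
def TrueFor (a : G →* Aut X) (h : C.CH X) (i : ℕ) {ι : Type} (R : ι → Subgroup G) : Prop :=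
  ∀ j, QuotientHart C a h i (R j)

end

/-- **Group actions and Hartshorne's conjecture.** -/
theorem result {k : Type u} [Field k] {𝒱 : VarClass k} (C : ChowTheory.{u, v} 𝒱) (X : 𝒱.Obj)
    {G : Type} [Group G] [Finite G] (a : G →* Aut X) (h : C.CH X)
    (hh : ∀ g, C.pull (a g).hom h = h) (i : ℕ) :
    (QuotientHart C a h i ⊥ ↔ Hart C X h i) ∧
    (∀ (H : Subgroup G) (Y : 𝒱.Obj) (f : X ⟶ Y) (l : C.CH Y), IsQuotientMap C a H f →
      Hart C Y l i → C.pull f l = h → QuotientHart C a h i H) ∧
    (∀ (K : Subgroup G) (ι : Type) (R : ι → Subgroup G), (∀ x ∈ K, ∀ y ∈ K, x * y = y * x) →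
      TrueFor C a h i R → (Hart C X h i ↔ ∀ D : Subgroup G, CyclicQuotient K D →
        (∀ j, ¬ R j ≤ D) → QuotientHart C a h i D)) ∧
    Rest C a h i ∧
    (∀ (n k : ℕ) (e : Perm (Fin n) →* G), 2 ≤ k → (k - 1) ^ 2 < n →
      (Hart C X h i ↔ QuotientHart C a h i ((symSub n k).map e) ∧
        ∀ z ∈ C.gr X i, Alternating C a e k z → ∃ q : ℚ, z = q • h ^ i)) ∧
    (¬ Hart C X h i → (∀ P : Subgroup G, (Nat.card P).Prime → QuotientHart C a h i P) →
      FreeCH C a h i ∧ CyclicSubgroups G) := by
  obtain ⟨m1, m2, m3, m4, m5, m6, m7, m8, m9⟩ := mainCH (C := C) (a := a) hh i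
  have hb : QuotientHart C a h i ⊥ ↔ Hart C X h i := hart_bot i
  rw [hb] at m9
  simp only [hb] at m2 m3 m4 m5 m6 m7 m8
  refine ⟨hb, ?_, ?_, ⟨m1, m2, m3, m4, m5, m6, m7⟩, m8, m9⟩
  · intro H Y f l hf hl hlh
    exact hart_cover hf hl hlh
  · intro K ι R hK hR
    constructor
    · intro h1 D _ _
      exact hart_mono bot_le (hb.mpr h1)
    · intro h1
      rw [m2 K hK]
      intro D hD
      by_cases h2 : ∀ j, ¬ R j ≤ D
      · exact h1 D hD h2
      · push Not at h2
        obtain ⟨j, hj⟩ := h2
        exact hart_mono hj (hR j)

end Pool.Agent.Results.MP_4be043_ag.GroupActions
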