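import Pool.Agent.Run7.h634.HC.Pen

/-!
# Hartshorne's conjecture on hypersurfaces: the codimension next to the middle suffices

For a smooth hypersurface `X` of degree `d` and dimension `n` the conjecture says `CH^i(X) = ℚ h^i` for all
`i < n / 2` (rational coefficients). Denote by `S_d(n, i)` the statement that this equality is true for
all smooth hypersurfaces of degree `d` and dimension `n`. The conjecture is `S_d(n, i)` for `n ≥ 2 i + 1`.

**Theorem.** Let `d ≥ 1` and `e` be given (for instance `e = 1`).

1. If `S_d(2 j + e, j)` is true for `1 ≤ j ≤ I`, then `S_d(n, i)` is true for all `i ≤ I` and `n ≥ 2 i + e`.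
2. If for every `N` there are a multiple `d' ≥ 3` of `d` and `i ≥ N` such that `S_{d'}(2 i + e, i)` is true,
   then `S_d(n, i)` is true for all `i` and `n ≥ 2 i + e`.
3. Hartshorne's conjecture is true (for all `d`, `n`, `i < n / 2`) if and only if for every `d` and `N` there
   are a multiple `d'` of `d` and `i ≥ N` such that `S_{d'}(2 i + 1, i)` is true.
4. Let `d ≥ 3`. If `S_d(2 i + 2, i)` is true for infinitely many `i` and the algebraically trivial cycles
   of codimension `m` on the hypersurfaces of degree `d` and dimension `2 m` are zero for infinitely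
   many `m`, then Hartshorne's conjecture is true for the hypersurfaces of degree `d`.

So for codimension two cycles the case of fivefolds of degree `d` implies the one of all hypersurfaces
of degree `d` and dimension `≥ 5` (1, with `I = 2`, since the case of divisors is known), and the whole
conjecture follows from the single codimension next to the middle in infinitely many odd dimensions.

## Proof

(1) Let `X` be smooth or the resolution of a hypersurface with one node; in the second case let `E^i` be
the space of the classes in `CH^i(X)` which are supported on the exceptional quadric. We prove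
`CH^i(X) = ℚ h^i + E^i` by induction on `i` and `n`. Let `a ∈ CH^i(X)` be primitive. The restriction of `a` to a
smooth hyperplane section is primitive, hence zero by the induction on `n`. By the theorem of Bloch and
Srinivas, applied to a Lefschetz pencil, `a` is a sum of a class in `E^i` and classes `f_* y` where `f : Y ⟶ X`
is the resolution of a hyperplane section with at most one node and `y ∈ CH^(i-1)(Y)`. Since the dimension
of `Y` is large enough with respect to `i - 1`, the induction on `i` gives `y ∈ ℚ h^(i-1) + E^(i-1)`, and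
`f_* h^(i-1) = h^(i-1) · f_* 1` is in `h^i + E^i`, because `f_* 1 - h ∈ E^1` and `h · E^1 = 0`. So `a` is in
`ℚ h^i + E^i`.

(2), (3) Joins: if `a` is primitive of codimension `j` on `X`, `dim X = 2 j + e`, and `ζ` is a primitive class
of middle codimension on an even-dimensional hypersurface `Z`, with `ζ ^ 2 ≠ 0`, then the join of `a` and `ζ` is
primitive of codimension `i` on a hypersurface of dimension `2 i + e`, and its vanishing implies `a = 0`. Every
large `i` is reached. Every hypersurface is dominated by one of degree `d m` and the same dimension. Then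
we can apply (1). (4) The two conditions imply `S_d(2 i + 1, i)` for all `i` by joins with plane curves (this
is known from `OddDimensionsSuffice`). Then we can apply (1).

The theory `C` in the statement has the formal properties of the Chow groups with rational
coefficients (`IsChowProj`); the facts on hypersurfaces, joins (`IsHyperFamily`, `IsHyperClass`,
`IsJoin`) and pencils (`IsPencilClass`) and in (4) the theorem of Bloch and Srinivas (`BlochSrinivas`)
are the other known results which are used.
-/

set_option autoImplicit false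

open CategoryTheory AlgebraicGeometry

universe u v

namespace Pool.Agent.Results.MP_4be043_ag.NextToMiddleSuffices

open Pool.Agent.H914 Pool.Agent.H914.VarClass Pool.Agent.W492.BB Pool.Agent.TH133
  Pool.Agent.Run7.H634.HC

/-- **The codimension next to the middle suffices in Hartshorne's conjecture.** `𝓕 d` is the class of
the smooth hypersurfaces of degree `d` (of positive dimension) with their hyperplane classes, and
`Equality C (𝓕 d) n i` says that `CH^i(X) = ℚ h^i` for all `X` in `𝓕 d` of dimension `n`. (1) For all `d ≥ 1`,
`e` and `I` the equalities for `(n, i) = (2 j + e, j)`, `1 ≤ j ≤ I`, imply the ones for `i ≤ I`, `n ≥ 2 i + e`.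
(2) If for every `N` the equality is true for a multiple `d' ≥ 3` of `d` and `(2 i + e, i)` with some
`i ≥ N`, then it is true for `d` and all `(n, i)` with `n ≥ 2 i + e`. (3) Hartshorne's conjecture for all
degrees is equivalent to the equality in a cofinal set of degrees `d'` and codimensions `i`, with
dimension `2 i + 1`. (4) For `d ≥ 3` the equality for `(2 i + 2, i)` and infinitely many `i` and the vanishing
of the algebraically trivial cycles of middle codimension in infinitely many even dimensions imply
Hartshorne's conjecture for the degree `d`. -/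
theorem result {k : Type u} [Field k] {𝒱 : VarClass k} {C : TheoryData.{u, v, 0} 𝒱 ℚ}
    [IsChowProj C] {𝓕 : ℕ → ∀ X : 𝒱.Obj, C.A X → Prop}
    {𝓠 : ℕ → ∀ X : 𝒱.Obj, C.A X → (ℕ → Submodule ℚ (C.A X)) → Prop}
    (h𝓕 : IsHyperFamily C 𝓕) (h𝓠 : ∀ d, 1 ≤ d → IsPencilClass C d (𝓕 d) (𝓠 d)) :
    (∀ d : ℕ, 1 ≤ d → ∀ e I : ℕ,
      (∀ j, 1 ≤ j → j ≤ I → Equality C (𝓕 d) (2 * j + e) j) →
        ∀ i, i ≤ I → ∀ n, 2 * i + e ≤ n → Equality C (𝓕 d) n i) ∧
    (∀ d : ℕ, 1 ≤ d → ∀ e : ℕ,
      (∀ N : ℕ, ∃ d' i : ℕ, d ∣ d' ∧ 3 ≤ d' ∧ N ≤ i ∧ Equality C (𝓕 d') (2 * i + e) i) →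
        ∀ n i : ℕ, 2 * i + e ≤ n → Equality C (𝓕 d) n i) ∧
    ((∀ d, 1 ≤ d → Hartshorne C (𝓕 d) Any) ↔
      ∀ d N : ℕ, 1 ≤ d → ∃ d' i : ℕ, d ∣ d' ∧ 1 ≤ d' ∧ N ≤ i ∧
        Equality C (𝓕 d') (2 * i + 1) i) ∧
    (BlochSrinivas C → ∀ d : ℕ, 3 ≤ d →
      (∀ N : ℕ, ∃ i ≥ N, Equality C (𝓕 d) (2 * i + 2) i) →
      ∀ D : ℕ → Prop, Unbounded D 0 → MiddleFor C (𝓕 d) D → Hartshorne C (𝓕 d) Any) := by
  refine ⟨fun d hd e I H i hi => (pencils (h𝓠 d hd) (by omega) e I H i hi).1,
    fun d hd e H => all_of_inf h𝓕 hd (h𝓠 d hd) e H, ⟨fun H d N hd => ?_, fun H d hd => ?_⟩,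
    fun hBS d hd => even_version hBS h𝓕 hd (h𝓠 d (by omega))⟩
  · exact ⟨d, N, dvd_rfl, hd, le_rfl, (hartshorne_iff_equality _).1 (H d hd) _ _ le_rfl⟩
  · rw [hartshorne_iff_equality]
    refine all_of_inf h𝓕 hd (h𝓠 d hd) 1 fun N => ?_
    obtain ⟨d', i, hdd, hd1, hi, hE⟩ := H (3 * d) N (by omega)
    exact ⟨d', i, (Nat.dvd_mul_left d 3).trans hdd, by have := Nat.le_of_dvd hd1 hdd; omega, hi, hE⟩

end Pool.Agent.Results.MP_4be043_ag.NextToMiddleSuffices
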