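import Pool.Agent.Run7.h634.HC.Main

/-!
# Hartshorne's conjecture on hypersurfaces: infinitely many odd dimensions suffice

For a smooth hypersurface `X` of dimension `n` and degree `d` the conjecture says `CH^i(X) = ℚ h^i` for all
`i < n / 2` (rational coefficients). We call `e = n - 2 i ≥ 1` the defect of `i`.

**Theorem.** Let `d ≥ 3`.

1. If the equality holds for a defect `e` and the hypersurfaces of degree `d` in infinitely many
   dimensions `n ≡ e` modulo two, then for `e` and all hypersurfaces of degree `d`.
2. If it holds for the defects `e - 1` and `e + 1`, `e ≥ 2`, and degree `d`, then it holds for `e`.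
3. It holds for the defect `1` and degree `d` if it holds for the defect `2`, and the algebraically
   trivial cycles of codimension `n / 2` are zero for the hypersurfaces in infinitely many even
   dimensions `n`.
4. Let `T` be a set of pairs `(d, n)` such that for every `d` and `N` there is a pair `(d', n)` in `T` with
   `d ∣ d'`, `n ≥ N` and `n` odd. If the conjecture is true for the degree and dimension `(d, n)` for all
   `(d, n)` in `T`, then it is true.

For instance, the whole conjecture follows from the case of odd `n ≥ f(d)`, for any function `f`, so from
the case of Fano hypersurfaces of odd dimension and large index; and only infinitely many, sufficiently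
divisible degrees are needed.

## Proof

Let `X` and `Z` be hypersurfaces `F(x) = 0`, `G(y) = 0` of degree `d` and dimension `n`, `m`. The join `J` is the
hypersurface `F(x) + G(y) = 0` of dimension `n + m + 2`. The lines which join `x ∈ X` and `z ∈ Z` are contained
in `J`; they form a `ℙ¹`-bundle `P` over `X × Z`, and `q_* π^*` maps the classes `α ∈ CH^j(X × Z)` which are
primitive in both factors to primitive classes in `CH^(j+1)(J)`, injectively since
`π_* q^* q_* π^* α = - d α`. So these `α` vanish if the equality holds for `J` and `j + 1`; the defects are added:
if `a ∈ CH^i(X)`, `b ∈ CH^j(Z)` have the defects `e`, `e'` then `a × b` has the defect `e + e'`.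

(1) Take `b` in the middle codimension of an even-dimensional `Z`, primitive with `b ^ 2 ≠ 0`: if `a ≠ 0`
is primitive then `a × b ≠ 0` gives a class of the same defect on `J`.

(2), (3) Let `a ∈ CH^i(X)` be primitive with defect `e` and let `Z` be a plane curve of degree `d`, with
primitive projector `p ∈ CH^1(Z × Z)`. The restriction of `x = a × p` to `(X × Z) × z` is `a × p_* z`, which has
the defect `e - 1` and is zero (for `e = 1` it is algebraically trivial of middle codimension on `J`).
By the theorem of Bloch and Srinivas `x = ∑ y_k × [z_k]` with `y_k ∈ CH^i(X × Z)`. The part of `y_k` which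
is primitive in both factors has the defect `e + 1` and is zero. If we multiply `x` by `1 × p` and push
forward to `X`, the other parts of the `y_k` give zero, and `a × p` gives `deg(p ^ 2) a = - (d-1)(d-2) a`. So
`a = 0`.

(4) Every hypersurface is dominated by one of degree `d m` and the same dimension.

The theory `C` in the statement has the formal properties of the Chow groups with rational
coefficients (`IsChowProj`); the theorem of Bloch and Srinivas (`BlochSrinivas`) and the facts on
hypersurfaces and joins (`IsHyperFamily`, `IsHyperClass`, `IsJoin`) are the other known results which are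
used.
-/

set_option autoImplicit false

open CategoryTheory AlgebraicGeometry

universe u v

namespace Pool.Agent.Results.MP_4be043_ag.OddDimensionsSuffice

open Pool.Agent.H914 Pool.Agent.H914.VarClass Pool.Agent.W492.BB Pool.Agent.TH133
  Pool.Agent.Run7.H634.HC

/-- **Hartshorne's conjecture for infinitely many odd dimensions implies it for all.** `𝓕 d` is the
class of the smooth hypersurfaces of degree `d` (of positive dimension) with their hyperplane
classes. For `d ≥ 3`: (1) the equality `CH^i(X) = ℚ h^i` for all `X` and `i` with `dim X - 2 i = e` follows from
the one in infinitely many dimensions congruent to `e` modulo two; (2) the equality for `e - 1` and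
`e + 1` implies the one for `e ≥ 2`; (3) the equality for `2` implies the one for `1` if algebraically
trivial cycles of middle codimension are zero in infinitely many even dimensions. (4) If `T` is
cofinal, then the conjecture for all degrees `d` and dimensions `n` with `(d, n)` in `T` implies the
conjecture for all degrees and dimensions. -/
theorem result {k : Type u} [Field k] {𝒱 : VarClass k} {C : TheoryData.{u, v, 0} 𝒱 ℚ}
    [IsChowProj C] (hBS : BlochSrinivas C) {𝓕 : ℕ → ∀ X : 𝒱.Obj, C.A X → Prop}
    (h𝓕 : IsHyperFamily C 𝓕) :
    (∀ d : ℕ, 3 ≤ d → (∀ (e : ℕ) (D : ℕ → Prop), Unbounded D e → HoldsFor C (𝓕 d) e D →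
        HoldsFor C (𝓕 d) e Any) ∧
      (∀ e : ℕ, 2 ≤ e → HoldsFor C (𝓕 d) (e - 1) Any → HoldsFor C (𝓕 d) (e + 1) Any →
        HoldsFor C (𝓕 d) e Any) ∧
      (∀ D : ℕ → Prop, Unbounded D 0 → MiddleFor C (𝓕 d) D → HoldsFor C (𝓕 d) 2 Any →
        HoldsFor C (𝓕 d) 1 Any)) ∧
    (∀ T : ℕ → ℕ → Prop, Cofinal T → (∀ d, 1 ≤ d → Hartshorne C (𝓕 d) (T d)) →
      ∀ d, 1 ≤ d → Hartshorne C (𝓕 d) Any) :=
  main hBS h𝓕

end Pool.Agent.Results.MP_4be043_ag.OddDimensionsSuffice
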